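import Mathlib
import Pool.Agent.Helper99.NMax.Formula
import Pool.Agent.Helper33.NMaxQ.Value

/-!
# MP_530095_co: the value of `n(D,1,r)` for `D - 1` a prime power and `r ≥ D - 1`
-/

namespace Pool.Agent.Results.MP_530095_co.ExactValue

open Pool.Agent.Helper99.NMax Pool.Agent.Helper33.NMaxQ

/-- For all `D` and `r`, `n(D,1,r) ≤ 1 + D (r - 1) - (D - 1) ⌊(r - 1) / D⌋`; equality holds if
`D - 1` is a prime power (or `D ≤ 2`) and `r ≥ D - 1`. -/
theorem result (D r : ℕ) (hD : 1 ≤ D) (hr : 1 ≤ r) :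
    nMax D r ≤ 1 + D * (r - 1) - (D - 1) * ((r - 1) / D) ∧
    ((D ≤ 2 ∨ IsPrimePow (D - 1)) → D - 1 ≤ r →
      nMax D r = 1 + D * (r - 1) - (D - 1) * ((r - 1) / D)) := by
  refine ⟨upper_bound D r, fun h hDr => ?_⟩
  show nMax D r = F D r
  rcases h with h | h
  · obtain rfl | rfl : D = 1 ∨ D = 2 := by omega
    · exact value_one hr
    · exact value_two hr
  · obtain ⟨q, rfl⟩ : ∃ q, D = q + 1 := ⟨D - 1, by omega⟩
    exact value_primePow h hr hDr

end Pool.Agent.Results.MP_530095_co.ExactValue
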