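import Mathlib
import Pool.Agent.Helper99.NMax.Formula

/-!
# MP_530095_co: `n(D,1,r)` and projective planes of order `D - 1`, `r > (D - 1)^2`
-/

namespace Pool.Agent.Results.MP_530095_co.PlaneCriterion

open Pool.Agent.Helper99.NMax

/-- For `D ≥ 2` and `r > (D - 1) ^ 2` the equality
`n(D,1,r) = 1 + D (r - 1) - (D - 1) ⌊(r - 1) / D⌋` holds if and only if there is a projective plane
of order `D - 1`. -/
theorem result (D r : ℕ) (hD : 2 ≤ D) (hr : (D - 1) ^ 2 < r) :
    nMax D r = 1 + D * (r - 1) - (D - 1) * ((r - 1) / D) ↔ PlaneExists (D - 1) := by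
  obtain ⟨q, rfl⟩ : ∃ q, D = q + 1 := ⟨D - 1, by omega⟩
  rw [Nat.add_sub_cancel] at hr ⊢
  have hc := range_of_large hr
  constructor
  · intro h
    exact main_plane (by omega) (by omega) hc h
  · intro hP
    exact main_eq (by omega) (by omega) hP (by omega)

end Pool.Agent.Results.MP_530095_co.PlaneCriterion
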