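import Mathlib
import Pool.Agent.Helper99.NMax.Formula
import Pool.Agent.Helper33.NMaxQ.Value
import Pool.Agent.Helper33.NMaxQ.Small

/-!
# MP_530095_co: `n(D,1,r)` for `D ≤ 6`
-/

namespace Pool.Agent.Results.MP_530095_co.SmallDegree

open Pool.Agent.Helper99.NMax Pool.Agent.Helper33.NMaxQ

/-- All values `n(D,1,r)` for `1 ≤ D ≤ 6`. -/
theorem result :
    (∀ D r : ℕ, 1 ≤ D → D ≤ 6 → 1 ≤ r → ¬ (D = 5 ∧ r = 3) → ¬ (D = 6 ∧ r = 4) →
      nMax D r = 1 + D * (r - 1) - (D - 1) * ((r - 1) / D)) ∧
    nMax 5 3 = 10 ∧ nMax 6 4 = 18 := by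
  refine ⟨?_, ?_, ?_⟩
  · intro D r hD hD5 hr h53 h64
    show nMax D r = F D r
    obtain rfl | rfl | rfl | rfl | rfl | rfl :
      D = 1 ∨ D = 2 ∨ D = 3 ∨ D = 4 ∨ D = 5 ∨ D = 6 := by omega
    · exact value_one hr
    · exact value_two hr
    · by_cases h : 2 ≤ r
      · exact value_primePow (q := 2) Nat.prime_two.isPrimePow hr h
      · obtain rfl : r = 1 := by omega
        exact nMax_one
    · by_cases h : 3 ≤ r
      · exact value_primePow (q := 3) Nat.prime_three.isPrimePow hr h
      · obtain rfl | rfl : r = 1 ∨ r = 2 := by omega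
        · exact nMax_one
        · exact nMax_two (by norm_num)
    · by_cases h : 4 ≤ r
      · exact value_primePow (q := 4) ⟨2, 2, Nat.prime_two.prime, by norm_num, by norm_num⟩ hr h
      · obtain rfl | rfl : r = 1 ∨ r = 2 := by omega
        · exact nMax_one
        · exact nMax_two (by norm_num)
    · by_cases h : 5 ≤ r
      · exact value_primePow (q := 5) (Nat.Prime.isPrimePow (by norm_num)) hr h
      · obtain rfl | rfl | rfl : r = 1 ∨ r = 2 ∨ r = 3 := by omega
        · exact nMax_one
        · exact nMax_two (by norm_num)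
        · exact le_antisymm (upper_bound _ _) (le_nMax good_6_3)
  · refine le_antisymm (nMax_le fun n hn => ?_) (le_nMax good_5_3)
    by_contra hcon
    exact not_good_5_3 (good_mono hn le_rfl le_rfl (by omega))
  · refine le_antisymm (nMax_le fun n hn => ?_) (le_nMax good_6_4)
    by_contra hcon
    exact not_good_6_4 (good_mono hn le_rfl le_rfl (by omega))

end Pool.Agent.Results.MP_530095_co.SmallDegree
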