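import Mathlib
import Pool.Agent.Helper67.UniformAsymptoticsProof

/-!
# MP_530095_co: first-order asymptotics of `n(Δ,1,r)`, uniformly in `r`

We prove that `n(Δ,1,r) / (Δ (r - 1)) → 1` as `Δ → ∞`, uniformly for all `r ≥ 2`.  The lower bound
comes from blown-up transversal designs over `ZMod m`, with `m` coprime to `(k - 1)!`, whose groups
are filled recursively.
-/

namespace Pool.Agent.Results.MP_530095_co.UniformAsymptotics

open Finset

/-- `E` is the edge set of a `(Δ,1,r)`-hypergraph with vertex set `V`: the edges are nonempty, any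
two distinct vertices lie in a common edge, every vertex lies in at most `Δ` edges, and every edge
has at most `r` vertices. -/
structure IsDiamOne {V : Type} [Fintype V] [DecidableEq V] (Δ r : ℕ)
    (E : Finset (Finset V)) : Prop where
  nonempty : ∀ e ∈ E, e.Nonempty
  covers : ∀ x y : V, x ≠ y → ∃ e ∈ E, x ∈ e ∧ y ∈ e
  degree : ∀ x : V, (E.filter (fun e => x ∈ e)).card ≤ Δ
  rank : ∀ e ∈ E, e.card ≤ r

/-- `n(Δ,1,r)`: the largest number of vertices of a `(Δ,1,r)`-hypergraph. -/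
noncomputable def nMax (Δ r : ℕ) : ℕ :=
  sSup {n : ℕ | ∃ E : Finset (Finset (Fin n)), IsDiamOne Δ r E}

/-- **Uniform first-order asymptotics of `n(Δ,1,r)`.**  For every `ε > 0` there is `Δ₀` such that
`|n(Δ,1,r) / (Δ (r - 1)) - 1| ≤ ε` for all `Δ ≥ Δ₀` and all `r ≥ 2`. -/
theorem result : ∀ ε : ℝ, 0 < ε → ∃ Δ₀ : ℕ, ∀ Δ r : ℕ, Δ₀ ≤ Δ → 2 ≤ r →
    |(nMax Δ r : ℝ) / ((Δ : ℝ) * ((r : ℝ) - 1)) - 1| ≤ ε := by
  have e : ∀ Δ r : ℕ, nMax Δ r = Helper67.UA.nMax Δ r := by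
    intro Δ r
    unfold nMax Helper67.UA.nMax
    congr 1
    ext n
    exact ⟨fun ⟨E, h⟩ => ⟨E, ⟨h.1, h.2, h.3, h.4⟩⟩, fun ⟨E, h⟩ => ⟨E, ⟨h.1, h.2, h.3, h.4⟩⟩⟩
  intro ε hε
  simpa only [e] using Helper67.UA.main ε hε

end Pool.Agent.Results.MP_530095_co.UniformAsymptotics
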